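import Pool.Agent.H19.IntKEx

set_option autoImplicit false

namespace Pool.Agent.Results.MP_efce82_al.Counterexample

open Polynomial TensorProduct Pool.Agent.H19.IntK

section
variable (D K A : Type*) [CommRing D] [Field K] [Algebra D K] [Ring A] [Algebra D A]

/-- `Int_K(A')`: the polynomials over `K` mapping `A'` into `A'`. -/
def IntInt : Set K[X] := {f | ∀ b : K ⊗[D] A, IsIntegral D b → IsIntegral D (aeval b f)}

/-- `Ω_S`: the roots in the algebraic closure of the minimal polynomials of elements of `S`. -/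
def Omega (S : Set (K ⊗[D] A)) : Set (AlgebraicClosure K) :=
  {α | ∃ b ∈ S, aeval α (minpoly K b) = 0}

end

/-- There are an integrally closed domain `D` and a torsion-free module-finite `D`-algebra `A ⊇ D`
such that `A` is polynomially dense in `A'` but `Ω_A ≠ Ω_{A'}`. -/
theorem result : ∃ (D K A : Type) (_ : CommRing D) (_ : IsDomain D) (_ : IsIntegrallyClosed D)
    (_ : Field K) (_ : Algebra D K) (_ : IsFractionRing D K) (_ : Ring A) (_ : Algebra D A)
    (_ : FaithfulSMul D A) (_ : Module.IsTorsionFree D A) (_ : Module.Finite D A),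
    IntK' D K A = IntInt D K A ∧
      ∃ α ∈ Omega D K A {b | IsIntegral D b}, α ∉ Omega D K A (Set.range fun a => 1 ⊗ₜ a) := by
  refine ⟨ℚ[X], RatFunc ℚ, Cusp, _, inferInstance, inferInstance, _, _, inferInstance, _, _,
    inferInstance, inferInstance, inferInstance, Set.ext fun f => ⟨fun h b hb => ?_,
      fun h a => h _ ((IsIntegral.of_finite ℚ[X] a).map Algebra.TensorProduct.includeRight)⟩, ?_⟩
  · obtain ⟨g, rfl⟩ := mem_lifts h
    rw [coe_mapRingHom, aeval_map_algebraMap]
    exact adjoin_le_integralClosure hb (aeval_mem_adjoin_singleton _ _)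
  have : Nontrivial (RatFunc ℚ ⊗[ℚ[X]] Cusp) := ⟨_, _, fun h => one_ne_zero (inj (A := Cusp) h)⟩
  have key : ∀ (b : RatFunc ℚ ⊗[ℚ[X]] Cusp) (α : AlgebraicClosure (RatFunc ℚ)) (p : ℚ[X][X]),
      aeval α (minpoly (RatFunc ℚ) b) = 0 → aeval b p = 0 → aeval α p = 0 := fun b α p h h' => by
    rw [← aeval_map_algebraMap (RatFunc ℚ)] at h' ⊢
    exact aeval_eq_zero_of_dvd_aeval_eq_zero (minpoly.dvd _ _ h') h
  obtain ⟨α, hα⟩ := IsAlgClosed.exists_aeval_eq_zero (AlgebraicClosure (RatFunc ℚ)) _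
    (minpoly.degree_pos (IsIntegral.of_finite (RatFunc ℚ) beta)).ne'
  refine ⟨α, ⟨beta, beta_int, hα⟩, ?_⟩
  rintro ⟨_, ⟨⟨x, y⟩, rfl⟩, h⟩
  have h1 := key _ _ (X ^ 2 - C X) hα (by simp [beta_sq])
  have h2 := key _ _ ((X - C x) ^ 2 - C (y ^ 2 * X ^ 3)) h (by
    refine (aeval_algHom_apply (Algebra.TensorProduct.includeRight : Cusp →ₐ[ℚ[X]] _) _ _).trans ?_
    rw [show aeval (⟨x, y⟩ : Cusp) _ = 0 by
      rw [map_sub, map_pow, map_sub, aeval_X, aeval_C, aeval_C]
      ext1 <;> simp [sq, ← map_pow, mul_comm, mul_assoc],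
      map_zero])
  simp only [map_sub, map_pow, aeval_X, aeval_C] at h1 h2
  have h3 : (X + x ^ 2 - y ^ 2 * X ^ 3) ^ 2 = (2 * x) ^ 2 * X :=
    (show Function.Injective (algebraMap ℚ[X] (AlgebraicClosure (RatFunc ℚ))) from
      (algebraMap (RatFunc ℚ) _).injective.comp (IsFractionRing.injective ℚ[X] (RatFunc ℚ))) (by
      simp only [map_sub, map_pow, map_add, map_mul, map_ofNat] at h2 ⊢
      generalize algebraMap ℚ[X] (AlgebraicClosure (RatFunc ℚ)) X = t at *
      generalize algebraMap ℚ[X] (AlgebraicClosure (RatFunc ℚ)) x = u at *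
      generalize algebraMap ℚ[X] (AlgebraicClosure (RatFunc ℚ)) y = v at *
      linear_combination (t + u ^ 2 - v ^ 2 * t ^ 3 + 2 * u * α) * (h2 - h1) + 4 * u ^ 2 * h1)
  rcases eq_or_ne x 0 with rfl | hx
  · simpa using congrArg (fun p => (derivative p).eval 0) (pow_eq_zero_iff two_ne_zero |>.mp
      (h3.trans (by simp)))
  · have := congrArg natDegree h3
    rw [natDegree_mul (by simp [hx]) X_ne_zero, natDegree_pow, natDegree_pow, natDegree_X] at this
    omega

end Pool.Agent.Results.MP_efce82_al.Counterexample
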